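import Mathlib

/-!
# A hypercyclic composition operator with a surjective symbol on the little Lipschitz space of a tree
-/

namespace Pool.Agent.Results.MP_2744a5_an.CombTree

open Finset

/-- A rooted tree: an infinite, locally finite tree with a root; only the root may have degree
one. -/
structure RootedTree (V : Type) where
  /-- the underlying graph -/
  G : SimpleGraph V
  /-- the root -/
  root : V
  isTree : G.IsTree
  locallyFinite : ∀ v, (G.neighborSet v).Finite
  infinite : Infinite V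
  degree_one : ∀ v, (G.neighborSet v).ncard = 1 → v = root

variable {V : Type}

/-- `w` is the parent of `v`: the neighbour of `v` that is one step closer to the root. -/
def IsParent (T : RootedTree V) (w v : V) : Prop :=
  T.G.Adj w v ∧ T.G.dist T.root v = T.G.dist T.root w + 1

/-- Membership in the little Lipschitz space. -/
def LittleLip (T : RootedTree V) (f : V → ℂ) : Prop :=
  ∀ ε : ℝ, 0 < ε → {v | ∃ w, IsParent T w v ∧ ε ≤ ‖f v - f w‖}.Finite

/-- The norm of the little Lipschitz space. -/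
noncomputable def lipNorm (T : RootedTree V) (f : V → ℂ) : ℝ :=
  max ‖f T.root‖ (sSup {r : ℝ | ∃ w v, IsParent T w v ∧ r = ‖f v - f w‖})

/-- `C_φ` maps the little Lipschitz space boundedly into itself. -/
def IsCompositionOperator (T : RootedTree V) (φ : V → V) : Prop :=
  (∀ f, LittleLip T f → LittleLip T (f ∘ φ)) ∧
    ∃ C : ℝ, ∀ f, LittleLip T f → lipNorm T (f ∘ φ) ≤ C * lipNorm T f

/-- `lam • C_φ` is hypercyclic: some `f` in the space has a dense orbit
(`(lam C_φ)^n f = lam^n f ∘ φ^n`). -/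
def Hypercyclic (T : RootedTree V) (φ : V → V) (lam : ℂ) : Prop :=
  ∃ f, LittleLip T f ∧ ∀ g, LittleLip T g → ∀ ε : ℝ, 0 < ε →
    ∃ n : ℕ, lipNorm T (fun v => lam ^ n * f (φ^[n] v) - g v) < ε

/-! ### The comb tree -/

/-- Vertices of the comb: `(k, j)` is the `j`-th vertex of the `k`-th tooth. -/
abbrev W := ℕ × ℕ

/-- The parent function of the comb. -/
def par : W → W
  | (k, j + 1) => (k, j)
  | (k + 1, 0) => (k, 0)
  | (0, 0) => (0, 0)

/-- The height. -/
def ht (v : W) : ℕ := v.1 + v.2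

theorem ht_par : ∀ v : W, v ≠ (0, 0) → ht (par v) + 1 = ht v
  | (k, j + 1), _ => by simp [par, ht]; omega
  | (k + 1, 0), _ => by simp [par, ht]
  | (0, 0), h => absurd rfl h

theorem ht_par_le (v : W) : ht (par v) ≤ ht v := by
  by_cases h : v = (0, 0)
  · subst h; exact le_rfl
  · have := ht_par v h; omega

theorem ne_par {v : W} (h : v ≠ (0, 0)) : v ≠ par v := by
  intro he
  have := ht_par v h
  rw [← he] at this
  omega

/-- The comb. -/
def comb : SimpleGraph W where
  Adj u v := u ≠ v ∧ (par u = v ∨ par v = u)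
  symm := ⟨fun _ _ h => ⟨h.1.symm, h.2.symm⟩⟩
  loopless := ⟨fun _ h => h.1 rfl⟩

theorem comb_adj {u v : W} : comb.Adj u v ↔ u ≠ v ∧ (par u = v ∨ par v = u) := Iff.rfl

theorem comb_adj_par {v : W} (h : v ≠ (0, 0)) : comb.Adj v (par v) :=
  ⟨ne_par h, Or.inl rfl⟩

theorem comb_reach (n : ℕ) : ∀ v : W, ht v = n → comb.Reachable (0, 0) v := by
  induction n using Nat.strong_induction_on with
  | _ n ih =>
    intro v hv
    by_cases h : v = (0, 0)
    · subst h; exact SimpleGraph.Reachable.refl _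
    · have h1 := ht_par v h
      exact (ih (ht (par v)) (by omega) (par v) rfl).trans (comb_adj_par h).reachable.symm

theorem comb_connected : comb.Connected := by
  rw [SimpleGraph.connected_iff_exists_forall_reachable]
  exact ⟨(0, 0), fun v => comb_reach _ v rfl⟩

theorem comb_acyclic : comb.IsAcyclic := by
  rw [SimpleGraph.isAcyclic_iff_forall_isBridge]
  intro e he
  induction e with
  | _ a b =>
    rw [SimpleGraph.mem_edgeSet] at he
    have key : ∀ v : W, v ≠ (0, 0) → comb.IsBridge s(v, par v) := by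
      intro v hv
      rw [SimpleGraph.isBridge_iff]
      intro hr
      rw [SimpleGraph.reachable_iff_reflTransGen] at hr
      have inv : ∀ w, Relation.ReflTransGen
          (comb \ SimpleGraph.fromEdgeSet {s(v, par v)}).Adj v w → ∃ n, par^[n] w = v := by
        intro w hw
        induction hw with
        | refl => exact ⟨0, rfl⟩
        | @tail x y _ hxy ih =>
          obtain ⟨n, hn⟩ := ih
          rw [SimpleGraph.sdiff_adj, SimpleGraph.fromEdgeSet_adj] at hxy
          obtain ⟨⟨hne, h1⟩, h2⟩ := hxy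
          rcases h1 with h1 | h1
          · -- par x = y
            cases n with
            | zero =>
              exfalso
              rw [Function.iterate_zero, id] at hn
              subst hn
              apply h2
              refine ⟨?_, hne⟩
              rw [h1]
              exact Set.mem_singleton _
            | succ m =>
              rw [Function.iterate_succ_apply, h1] at hn
              exact ⟨m, hn⟩
          · exact ⟨n + 1, by rw [Function.iterate_succ_apply, h1, hn]⟩
      obtain ⟨n, hn⟩ := inv _ hr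
      have hle : ∀ n w, ht (par^[n] w) ≤ ht w := by
        intro n
        induction n with
        | zero => intro w; exact le_rfl
        | succ m ih =>
          intro w
          rw [Function.iterate_succ_apply]
          exact (ih _).trans (ht_par_le w)
      have h1 := hle n (par v)
      have h2 := ht_par v hv
      rw [hn] at h1
      omega
    rcases he.2 with h | h
    · subst h
      apply key a
      intro h0
      apply he.1
      rw [h0]; rfl
    · subst h
      rw [Sym2.eq_swap]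
      apply key b
      intro h0
      apply he.1
      rw [h0]; rfl

theorem ht_adj {u v : W} (h : comb.Adj u v) : ht v ≤ ht u + 1 := by
  rcases h.2 with h1 | h1
  · rw [← h1]; exact (ht_par_le u).trans (Nat.le_succ _)
  · have hv : v ≠ (0, 0) := by
      intro h0
      apply h.1
      rw [← h1, h0]; rfl
    have := ht_par v hv
    rw [h1] at this
    omega

theorem ht_walk {u v : W} (p : comb.Walk u v) : ht v ≤ ht u + p.length := by
  induction p with
  | nil => simp
  | @cons a b c hab q ih =>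
    have := ht_adj hab
    rw [SimpleGraph.Walk.length_cons]
    omega

theorem comb_dist (n : ℕ) : ∀ v : W, ht v = n → comb.dist (0, 0) v = n := by
  induction n using Nat.strong_induction_on with
  | _ n ih =>
    intro v hv
    apply le_antisymm
    · by_cases h : v = (0, 0)
      · subst h
        rw [SimpleGraph.dist_self]; exact Nat.zero_le _
      · have h1 := ht_par v h
        have h2 := ih (ht (par v)) (by omega) (par v) rfl
        have h3 := comb_connected.dist_triangle (u := (0, 0)) (v := par v) (w := v)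
        have h4 : comb.dist (par v) v = 1 := SimpleGraph.dist_eq_one_iff_adj.2
          (comb_adj_par h).symm
        omega
    · obtain ⟨p, hp⟩ := comb_connected.exists_walk_length_eq_dist (0, 0) v
      have := ht_walk p
      rw [hp] at this
      have h0 : ht (0, 0) = 0 := rfl
      omega

theorem par_fiber (v : W) : {w | par w = v} ⊆ {(v.1, v.2 + 1), (v.1 + 1, 0), (0, 0)} := by
  intro w hw
  have hw : par w = v := hw
  rcases w with ⟨k, j⟩
  cases j with
  | succ j => simp [par] at hw; simp [← hw]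
  | zero =>
    cases k with
    | succ k => simp [par] at hw; simp [← hw]
    | zero => simp

/-- The comb as a rooted tree. -/
def T : RootedTree W where
  G := comb
  root := (0, 0)
  isTree := ⟨comb_connected, comb_acyclic⟩
  locallyFinite v := by
    apply Set.Finite.subset (s := {(v.1, v.2 + 1), (v.1 + 1, 0), (0, 0), par v})
    · exact Set.toFinite _
    · intro w hw
      rw [SimpleGraph.mem_neighborSet] at hw
      rcases hw.2 with h | h
      · simp [h]
      · have := par_fiber v h
        simp at this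
        rcases this with h | h | h <;> simp [h]
  infinite := inferInstance
  degree_one v hv := by
    by_contra h0
    have hfin : (comb.neighborSet v).Finite := by
      apply Set.finite_of_ncard_ne_zero
      rw [hv]; exact one_ne_zero
    rw [Set.ncard_eq_one] at hv
    obtain ⟨a, ha⟩ := hv
    have h1 : par v ∈ comb.neighborSet v := comb_adj_par h0
    have h2 : (v.1, v.2 + 1) ∈ comb.neighborSet v := by
      rw [SimpleGraph.mem_neighborSet]
      refine ⟨?_, Or.inr rfl⟩
      intro h
      have := congrArg Prod.snd h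
      simp at this
    rw [ha, Set.mem_singleton_iff] at h1 h2
    have h3 := ht_par v h0
    rw [h1, ← h2] at h3
    simp only [ht] at h3
    omega

theorem isParent_iff {w v : W} : IsParent T w v ↔ v ≠ (0, 0) ∧ w = par v := by
  have hd : ∀ v : W, T.G.dist T.root v = ht v := fun v => comb_dist _ v rfl
  unfold IsParent
  rw [hd, hd]
  constructor
  · rintro ⟨h1, h2⟩
    rcases h1.2 with h | h
    · exfalso
      have := ht_par_le w
      rw [h] at this
      omega
    · refine ⟨?_, h.symm⟩
      intro h0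
      subst h0
      simp only [ht] at h2
      omega
  · rintro ⟨h1, rfl⟩
    exact ⟨(comb_adj_par h1).symm, (ht_par v h1).symm⟩

/-! ### Norm bounds -/

/-- `f` has norm at most `C`. -/
def NB (f : W → ℂ) (C : ℝ) : Prop := ‖f (0, 0)‖ ≤ C ∧ ∀ v, ‖f v - f (par v)‖ ≤ C

theorem NB.nonneg {f : W → ℂ} {C : ℝ} (h : NB f C) : 0 ≤ C := (norm_nonneg _).trans h.1

theorem NB.mono {f : W → ℂ} {C D : ℝ} (h : NB f C) (hCD : C ≤ D) : NB f D :=
  ⟨h.1.trans hCD, fun v => (h.2 v).trans hCD⟩

theorem NB.lipNorm_le {f : W → ℂ} {C : ℝ} (h : NB f C) : lipNorm T f ≤ C := by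
  apply max_le h.1
  apply csSup_le
  · refine ⟨_, (0, 0), (0, 1), ?_, rfl⟩
    rw [isParent_iff]
    exact ⟨by simp, rfl⟩
  · rintro r ⟨w, v, hwv, rfl⟩
    rw [isParent_iff] at hwv
    rw [hwv.2]
    exact h.2 v

theorem littleLip_iff {f : W → ℂ} :
    LittleLip T f ↔ ∀ ε : ℝ, 0 < ε → {v | ε ≤ ‖f v - f (par v)‖}.Finite := by
  have key : ∀ ε : ℝ, 0 < ε →
      {v | ∃ w, IsParent T w v ∧ ε ≤ ‖f v - f w‖} = {v | ε ≤ ‖f v - f (par v)‖} := by
    intro ε hε
    ext v
    constructor
    · rintro ⟨w, hw, h⟩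
      rw [isParent_iff] at hw
      rw [hw.2] at h
      exact h
    · intro h
      have h : ε ≤ ‖f v - f (par v)‖ := h
      refine ⟨par v, ?_, h⟩
      rw [isParent_iff]
      refine ⟨?_, rfl⟩
      rintro rfl
      have : par (0, 0) = (0, 0) := rfl
      rw [this, sub_self, norm_zero] at h
      linarith
  constructor
  · intro h ε hε
    rw [← key ε hε]
    exact h ε hε
  · intro h ε hε
    rw [key ε hε]
    exact h ε hε

theorem LittleLip.NB_lipNorm {f : W → ℂ} (hf : LittleLip T f) : NB f (lipNorm T f) := by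
  have hbdd : BddAbove {r : ℝ | ∃ w v, IsParent T w v ∧ r = ‖f v - f w‖} := by
    have h1 := (littleLip_iff.1 hf) 1 one_pos
    have h2 := (h1.image fun v => ‖f v - f (par v)‖).bddAbove
    obtain ⟨B, hB⟩ := h2
    refine ⟨max B 1, ?_⟩
    rintro r ⟨w, v, hwv, rfl⟩
    rw [isParent_iff] at hwv
    rw [hwv.2]
    by_cases h : 1 ≤ ‖f v - f (par v)‖
    · exact (hB ⟨v, h, rfl⟩).trans (le_max_left _ _)
    · exact (le_of_not_ge h).trans (le_max_right _ _)
  refine ⟨le_max_left _ _, fun v => ?_⟩
  by_cases h : v = (0, 0)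
  · subst h
    have : par (0, 0) = (0, 0) := rfl
    rw [this, sub_self, norm_zero]
    exact (norm_nonneg _).trans (le_max_left _ _)
  · refine le_trans ?_ (le_max_right _ _)
    apply le_csSup hbdd
    exact ⟨par v, v, isParent_iff.2 ⟨h, rfl⟩, rfl⟩

theorem NB.add {f g : W → ℂ} {C D : ℝ} (hf : NB f C) (hg : NB g D) :
    NB (fun v => f v + g v) (C + D) := by
  refine ⟨(norm_add_le _ _).trans (add_le_add hf.1 hg.1), fun v => ?_⟩
  have : f v + g v - (f (par v) + g (par v)) = (f v - f (par v)) + (g v - g (par v)) := by ring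
  rw [this]
  exact (norm_add_le _ _).trans (add_le_add (hf.2 v) (hg.2 v))

theorem NB.smul {f : W → ℂ} {C : ℝ} (hf : NB f C) (c : ℂ) : NB (fun v => c * f v) (‖c‖ * C) := by
  refine ⟨?_, fun v => ?_⟩
  · rw [norm_mul]
    exact mul_le_mul_of_nonneg_left hf.1 (norm_nonneg _)
  · rw [← mul_sub, norm_mul]
    exact mul_le_mul_of_nonneg_left (hf.2 v) (norm_nonneg _)

theorem NB.sum {ι : Type} (s : Finset ι) {f : ι → W → ℂ} {C : ι → ℝ}
    (hf : ∀ i ∈ s, NB (f i) (C i)) : NB (fun v => ∑ i ∈ s, f i v) (∑ i ∈ s, C i) := by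
  refine ⟨?_, fun v => ?_⟩
  · exact (norm_sum_le _ _).trans (Finset.sum_le_sum fun i hi => (hf i hi).1)
  · rw [← Finset.sum_sub_distrib]
    exact (norm_sum_le _ _).trans (Finset.sum_le_sum fun i hi => (hf i hi).2 v)

theorem NB.pointwise {f : W → ℂ} {C : ℝ} (hf : NB f C) (n : ℕ) :
    ∀ v : W, ht v = n → ‖f v‖ ≤ (n + 1) * C := by
  induction n with
  | zero =>
    intro v hv
    have : v = (0, 0) := by
      rcases v with ⟨k, j⟩
      simp only [ht] at hv
      ext <;> simp <;> omega
    rw [this]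
    simpa using hf.1
  | succ m ih =>
    intro v hv
    have h0 : v ≠ (0, 0) := by
      rintro rfl
      simp [ht] at hv
    have h1 := ih (par v) (by have := ht_par v h0; omega)
    have h2 := hf.2 v
    have h3 : f v = f (par v) + (f v - f (par v)) := by ring
    rw [h3]
    refine (norm_add_le _ _).trans ?_
    push_cast
    linarith

theorem NB.tsum {f : ℕ → W → ℂ} {c : ℕ → ℝ} (hc : Summable c) (hf : ∀ i, NB (f i) (c i)) :
    NB (fun v => ∑' i, f i v) (∑' i, c i) := by
  have hs : ∀ v, Summable fun i => f i v := by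
    intro v
    apply Summable.of_norm_bounded (g := fun i => ((ht v : ℝ) + 1) * c i) (hc.mul_left _)
    intro i
    exact (hf i).pointwise _ v rfl
  refine ⟨?_, fun v => ?_⟩
  · exact tsum_of_norm_bounded hc.hasSum fun i => (hf i).1
  · show ‖∑' i, f i v - ∑' i, f i (par v)‖ ≤ _
    rw [← (hs v).tsum_sub (hs (par v))]
    exact tsum_of_norm_bounded hc.hasSum fun i => (hf i).2 v

theorem NB.of_bound {f : W → ℂ} {B : ℝ} (hf : ∀ v, ‖f v‖ ≤ B) : NB f (2 * B) := by
  have hB : 0 ≤ B := (norm_nonneg _).trans (hf (0, 0))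
  refine ⟨(hf _).trans (by linarith), fun v => ?_⟩
  exact (norm_sub_le _ _).trans (by linarith [hf v, hf (par v)])

/-! ### The symbol -/

/-- The symbol: shift the teeth to the left; teeth `0` and `1` are interleaved. -/
def φ : W → W
  | (0, j) => (0, 2 * j + 1)
  | (1, j) => (0, 2 * j)
  | (k + 2, j) => (k + 1, j)

theorem φ_bijective : Function.Bijective φ := by
  constructor
  · rintro ⟨k, j⟩ ⟨k', j'⟩ h
    match k, k' with
    | 0, 0 => simp [φ] at h; simp [h]
    | 0, 1 => simp [φ] at h; omega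
    | 0, k' + 2 => simp [φ] at h
    | 1, 0 => simp [φ] at h; omega
    | 1, 1 => simp [φ] at h; simp [h]
    | 1, k' + 2 => simp [φ] at h
    | k + 2, 0 => simp [φ] at h
    | k + 2, 1 => simp [φ] at h
    | k + 2, k' + 2 => simp [φ] at h; simp [h]
  · rintro ⟨k, j⟩
    cases k with
    | zero =>
      rcases Nat.even_or_odd' j with ⟨m, hm | hm⟩
      · exact ⟨(1, m), by simp [φ, hm]⟩
      · exact ⟨(0, m), by simp [φ, hm]⟩
    | succ k => exact ⟨(k + 2, j), by simp [φ]⟩

theorem par_mk_succ (k j : ℕ) : par (k, j + 1) = (k, j) := by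
  cases k <;> rfl

theorem par_succ_zero (k : ℕ) : par (k + 1, 0) = (k, 0) := rfl

/-- Images of adjacent vertices are at distance at most two. -/
theorem φ_par (f : W → ℂ) (v : W) : ∃ a b : W, (a = φ v ∨ a = φ (par v)) ∧
    (b = par a ∨ b = a) ∧
    ‖f (φ v) - f (φ (par v))‖ ≤ ‖f a - f (par a)‖ + ‖f b - f (par b)‖ := by
  rcases v with ⟨k, j⟩
  match k, j with
  | 0, 0 => exact ⟨_, _, Or.inl rfl, Or.inl rfl, by simp [par]; positivity⟩
  | 0, j + 1 =>
    refine ⟨φ (0, j + 1), par (φ (0, j + 1)), Or.inl rfl, Or.inl rfl, ?_⟩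
    have e1 : φ (0, j + 1) = (0, 2 * j + 2 + 1) := by simp [φ]; ring
    have e2 : φ (par (0, j + 1)) = (0, 2 * j + 1) := rfl
    rw [e2, e1, par_mk_succ, par_mk_succ]
    have : f (0, 2 * j + 2 + 1) - f (0, 2 * j + 1) =
      (f (0, 2 * j + 2 + 1) - f (0, 2 * j + 2)) + (f (0, 2 * j + 2) - f (0, 2 * j + 1)) := by ring
    rw [this]
    exact norm_add_le _ _
  | 1, 0 =>
    refine ⟨φ (par (1, 0)), φ (par (1, 0)), Or.inr rfl, Or.inr rfl, ?_⟩
    have e1 : φ (par (1, 0)) = (0, 1) := rfl
    have e2 : φ (1, 0) = (0, 0) := rfl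
    have e3 : par (0, 1) = (0, 0) := rfl
    rw [e1, e2, e3, norm_sub_rev]
    linarith [norm_nonneg (f (0, 1) - f (0, 0))]
  | 1, j + 1 =>
    refine ⟨φ (1, j + 1), par (φ (1, j + 1)), Or.inl rfl, Or.inl rfl, ?_⟩
    have e1 : φ (1, j + 1) = (0, 2 * j + 1 + 1) := by simp [φ]; ring
    have e2 : φ (par (1, j + 1)) = (0, 2 * j) := rfl
    rw [e2, e1, par_mk_succ, par_mk_succ]
    have : f (0, 2 * j + 1 + 1) - f (0, 2 * j) =
      (f (0, 2 * j + 1 + 1) - f (0, 2 * j + 1)) + (f (0, 2 * j + 1) - f (0, 2 * j)) := by ring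
    rw [this]
    exact norm_add_le _ _
  | k + 2, j + 1 =>
    refine ⟨φ (k + 2, j + 1), φ (k + 2, j + 1), Or.inl rfl, Or.inr rfl, ?_⟩
    have e1 : φ (k + 2, j + 1) = (k + 1, j + 1) := rfl
    have e2 : φ (par (k + 2, j + 1)) = (k + 1, j) := rfl
    rw [e2, e1, par_mk_succ]
    linarith [norm_nonneg (f (k + 1, j + 1) - f (k + 1, j))]
  | 2, 0 =>
    refine ⟨φ (2, 0), φ (2, 0), Or.inl rfl, Or.inr rfl, ?_⟩
    have e1 : φ (2, 0) = (1, 0) := rfl
    have e2 : φ (par (2, 0)) = (0, 0) := rfl
    have e3 : par (1, 0) = (0, 0) := rfl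
    rw [e2, e1, e3]
    linarith [norm_nonneg (f (1, 0) - f (0, 0))]
  | k + 3, 0 =>
    refine ⟨φ (k + 3, 0), φ (k + 3, 0), Or.inl rfl, Or.inr rfl, ?_⟩
    have e1 : φ (k + 3, 0) = (k + 2, 0) := rfl
    have e2 : φ (par (k + 3, 0)) = (k + 1, 0) := rfl
    have e3 : par (k + 2, 0) = (k + 1, 0) := rfl
    rw [e2, e1, e3]
    linarith [norm_nonneg (f (k + 2, 0) - f (k + 1, 0))]

theorem NB.comp_φ {f : W → ℂ} {C : ℝ} (hf : NB f C) : NB (f ∘ φ) (2 * C) := by
  have hC := hf.nonneg
  refine ⟨?_, fun v => ?_⟩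
  · have h1 := hf.2 (0, 1)
    have h2 := hf.1
    have e : par (0, 1) = (0, 0) := rfl
    rw [e] at h1
    have e2 : (f ∘ φ) (0, 0) = (f (0, 1) - f (0, 0)) + f (0, 0) := by
      simp [φ]
    rw [e2]
    exact (norm_add_le _ _).trans (by linarith)
  · obtain ⟨a, b, _, _, h⟩ := φ_par f v
    refine h.trans ?_
    linarith [hf.2 a, hf.2 b]

theorem NB.comp_φ_iter {f : W → ℂ} {C : ℝ} (hf : NB f C) (n : ℕ) :
    NB (fun v => f (φ^[n] v)) (2 ^ n * C) := by
  induction n with
  | zero => simpa using hf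
  | succ m ih =>
    have := ih.comp_φ
    have e : (fun v => f (φ^[m + 1] v)) = (fun v => f (φ^[m] v)) ∘ φ := by
      funext v
      rw [Function.iterate_succ_apply]; rfl
    rw [e]
    refine this.mono (le_of_eq ?_)
    ring

theorem par_finite (s : Set W) (hs : s.Finite) : (par ⁻¹' s).Finite := by
  have : par ⁻¹' s ⊆ ⋃ v ∈ s, {(v.1, v.2 + 1), (v.1 + 1, 0), (0, 0)} := by
    intro w hw
    simp only [Set.mem_iUnion]
    exact ⟨par w, hw, par_fiber (par w) rfl⟩
  apply Set.Finite.subset _ this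
  apply hs.biUnion
  intro v _
  exact Set.toFinite _

theorem compositionOperator : IsCompositionOperator T φ := by
  constructor
  · intro f hf
    rw [littleLip_iff] at hf ⊢
    intro ε hε
    have h1 := hf (ε / 2) (by linarith)
    set S := {v | ε / 2 ≤ ‖f v - f (par v)‖}
    -- bad vertices: images or parents of images are in `S`
    have hφ : ∀ s : Set W, s.Finite → (φ ⁻¹' s).Finite :=
      fun s hs => hs.preimage φ_bijective.1.injOn
    have hsub : {v | ε ≤ ‖(f ∘ φ) v - (f ∘ φ) (par v)‖} ⊆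
        φ ⁻¹' S ∪ par ⁻¹' (φ ⁻¹' S) ∪ φ ⁻¹' (par ⁻¹' S) ∪ par ⁻¹' (φ ⁻¹' (par ⁻¹' S)) := by
      intro v hv
      have hv : ε ≤ ‖f (φ v) - f (φ (par v))‖ := hv
      obtain ⟨a, b, ha, hb, h⟩ := φ_par f v
      have hab : a ∈ S ∨ b ∈ S := by
        by_contra hcon
        push Not at hcon
        have h3 : ¬ (ε / 2 ≤ ‖f a - f (par a)‖) := hcon.1
        have h4 : ¬ (ε / 2 ≤ ‖f b - f (par b)‖) := hcon.2
        linarith
      have hab2 : a ∈ S ∨ par a ∈ S := by
        rcases hab with h | h
        · exact Or.inl h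
        · rcases hb with hb | hb
          · right; rw [← hb]; exact h
          · left; rw [← hb]; exact h
      rcases hab2 with h | h <;> rcases ha with ha | ha <;> rw [ha] at h
      · exact Or.inl (Or.inl (Or.inl h))
      · exact Or.inl (Or.inl (Or.inr h))
      · exact Or.inl (Or.inr h)
      · exact Or.inr h
    refine Set.Finite.subset ?_ hsub
    exact (((hφ _ h1).union (par_finite _ (hφ _ h1))).union
      (hφ _ (par_finite _ h1))).union (par_finite _ (hφ _ (par_finite _ h1)))
  · refine ⟨2, fun f hf => ?_⟩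
    exact (LittleLip.NB_lipNorm hf).comp_φ.lipNorm_le

/-! ### Iterates of the symbol -/

/-- One plus the position in tooth `0` of the `n`-th image of a vertex. -/
def pos (n : ℕ) : W → ℕ
  | (0, j) => 2 ^ n * (j + 1)
  | (k + 1, j) => 2 ^ (n - (k + 1)) * (2 * j + 1)

theorem pos_pos (n : ℕ) (v : W) : 1 ≤ pos n v := by
  rcases v with ⟨k, j⟩
  cases k <;> exact Nat.one_le_iff_ne_zero.2 (by simp [pos])

theorem pos_succ (n : ℕ) (v : W) (h : v.1 ≤ n) : pos (n + 1) v = 2 * pos n v := by
  rcases v with ⟨k, j⟩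
  cases k with
  | zero => simp only [pos]; ring
  | succ k =>
    simp only [pos]
    have h : k + 1 ≤ n := h
    have : n + 1 - (k + 1) = (n - (k + 1)) + 1 := by omega
    rw [this]; ring

theorem iter_lt (n : ℕ) : ∀ k j, n < k → φ^[n] (k, j) = (k - n, j) := by
  induction n with
  | zero => intro k j _; rfl
  | succ m ih =>
    intro k j h
    rw [Function.iterate_succ_apply', ih k j (by omega)]
    obtain ⟨a, ha⟩ : ∃ a, k - m = a + 2 := ⟨k - m - 2, by omega⟩
    rw [ha]
    have : k - (m + 1) = a + 1 := by omega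
    rw [this]
    rfl

theorem iter_le (n : ℕ) : ∀ v : W, v.1 ≤ n → φ^[n] v = (0, pos n v - 1) := by
  induction n with
  | zero =>
    rintro ⟨k, j⟩ h
    have h : k = 0 := by simpa using h
    subst h
    simp [pos]
  | succ m ih =>
    rintro ⟨k, j⟩ h
    have h : k ≤ m + 1 := h
    rw [Function.iterate_succ_apply']
    rcases Nat.lt_or_ge m k with hk | hk
    · have hk' : k = m + 1 := by omega
      subst hk'
      rw [iter_lt m _ _ hk]
      have : m + 1 - m = 1 := by omega
      rw [this]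
      simp [φ, pos]
    · rw [ih (k, j) hk, pos_succ m (k, j) hk]
      have := pos_pos m (k, j)
      simp only [φ, Prod.mk.injEq, true_and]
      omega

theorem dvd_pos (n k₀ : ℕ) (h₀ : k₀ ≤ n) (v : W) (h : v.1 ≤ k₀) : 2 ^ (n - k₀) ∣ pos n v := by
  rcases v with ⟨k, j⟩
  cases k with
  | zero => exact (pow_dvd_pow 2 (Nat.sub_le _ _)).mul_right _
  | succ k =>
    have h : k + 1 ≤ k₀ := h
    exact (pow_dvd_pow 2 (by omega)).mul_right _

/-! ### The logarithmic cut-off -/

/-- The cut-off function. -/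
noncomputable def Psi (A l : ℕ) (i : ℕ) : ℝ :=
  max 0 (min 1 ((A * Real.log 2 - Real.log i) / (l * Real.log 2)))

theorem Psi_one {A l i : ℕ} (hl : 1 ≤ l) (hlA : l ≤ A) (hi : i ≤ 2 ^ (A - l)) :
    Psi A l i = 1 := by
  have hL : 0 < Real.log 2 := Real.log_pos (by norm_num)
  have hl' : (0 : ℝ) < l := by exact_mod_cast hl
  have h1 : Real.log i ≤ (A - l) * Real.log 2 := by
    rcases Nat.eq_zero_or_pos i with h0 | h0
    · subst h0
      simp only [Nat.cast_zero, Real.log_zero]
      apply mul_nonneg _ hL.le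
      have : (l : ℝ) ≤ A := by exact_mod_cast hlA
      linarith
    · have h2 : Real.log i ≤ Real.log ((2 : ℝ) ^ (A - l)) := by
        apply Real.log_le_log (by exact_mod_cast h0)
        exact_mod_cast hi
      rw [Real.log_pow] at h2
      have h3 : ((A - l : ℕ) : ℝ) = A - l := by push_cast [hlA]; ring
      rw [h3] at h2
      exact h2
  have h4 : 1 ≤ (A * Real.log 2 - Real.log i) / (l * Real.log 2) := by
    rw [le_div_iff₀ (by positivity)]
    linarith
  unfold Psi
  rw [min_eq_left h4]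
  exact max_eq_right zero_le_one

theorem Psi_zero {A l i : ℕ} (hi : 2 ^ A ≤ i) : Psi A l i = 0 := by
  have hL : 0 < Real.log 2 := Real.log_pos (by norm_num)
  have h1 : (A : ℝ) * Real.log 2 ≤ Real.log i := by
    rw [← Real.log_pow]
    apply Real.log_le_log (by positivity)
    exact_mod_cast hi
  have h2 : (A * Real.log 2 - Real.log i) / (l * Real.log 2) ≤ 0 := by
    apply div_nonpos_of_nonpos_of_nonneg
    · linarith
    · positivity
  unfold Psi
  rw [min_eq_right (h2.trans zero_le_one)]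
  exact max_eq_left h2

theorem Psi_lip (A l i i' : ℕ) :
    |Psi A l i - Psi A l i'| ≤ |Real.log i - Real.log i'| / (l * Real.log 2) := by
  have hL : 0 < Real.log 2 := Real.log_pos (by norm_num)
  have h0 : (0 : ℝ) ≤ l * Real.log 2 := by positivity
  unfold Psi
  have hmax : ∀ x y : ℝ, |max 0 x - max 0 y| ≤ |x - y| := by
    intro x y
    rcases le_total 0 x with hx | hx <;> rcases le_total 0 y with hy | hy
    · rw [max_eq_right hx, max_eq_right hy]
    · rw [max_eq_right hx, max_eq_left hy, abs_of_nonneg (by linarith), abs_of_nonneg (by linarith)]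
      linarith
    · rw [max_eq_left hx, max_eq_right hy, abs_of_nonpos (by linarith),
        abs_of_nonpos (by linarith)]
      linarith
    · rw [max_eq_left hx, max_eq_left hy, sub_self, abs_zero]; exact abs_nonneg _
  refine (hmax _ _).trans ?_
  have hmin : ∀ x y : ℝ, |min 1 x - min 1 y| ≤ |x - y| := by
    intro x y
    rcases le_total 1 x with hx | hx <;> rcases le_total 1 y with hy | hy
    · rw [min_eq_left hx, min_eq_left hy, sub_self, abs_zero]; exact abs_nonneg _
    · rw [min_eq_left hx, min_eq_right hy, abs_of_nonneg (by linarith), abs_of_nonneg (by linarith)]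
      linarith
    · rw [min_eq_right hx, min_eq_left hy, abs_of_nonpos (by linarith),
        abs_of_nonpos (by linarith)]
      linarith
    · rw [min_eq_right hx, min_eq_right hy]
  have h1 := hmin ((A * Real.log 2 - Real.log i) / (l * Real.log 2))
    ((A * Real.log 2 - Real.log i') / (l * Real.log 2))
  refine le_trans ?_ (le_trans h1 ?_)
  · exact le_rfl
  · rw [← sub_div, abs_div, abs_of_nonneg h0]
    apply div_le_div_of_nonneg_right _ h0
    have : (A : ℝ) * Real.log 2 - Real.log i - (A * Real.log 2 - Real.log i')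
      = -(Real.log i - Real.log i') := by ring
    rw [this, abs_neg]

/-- logarithms of nearby large numbers. -/
theorem log_near {m a b : ℕ} (ha : 2 ^ m ≤ a) (hb : 2 ^ m ≤ b) (h1 : a ≤ b + 1) (h2 : b ≤ a + 1) :
    |Real.log a - Real.log b| ≤ 1 / 2 ^ m := by
  have key : ∀ a b : ℕ, 2 ^ m ≤ b → a ≤ b + 1 → 1 ≤ a → Real.log a - Real.log b ≤ 1 / 2 ^ m := by
    intro a b hb h1 ha1
    have hb0 : (0 : ℝ) < b := by
      have : 0 < b := lt_of_lt_of_le (by positivity) hb
      exact_mod_cast this
    have ha0 : (0 : ℝ) < a := by exact_mod_cast ha1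
    rw [← Real.log_div ha0.ne' hb0.ne']
    have h3 := Real.log_le_sub_one_of_pos (div_pos ha0 hb0)
    have h4 : (a : ℝ) ≤ b + 1 := by exact_mod_cast h1
    have h5 : (a : ℝ) / b - 1 ≤ 1 / b := by
      rw [div_sub_one hb0.ne']
      apply div_le_div_of_nonneg_right _ hb0.le
      linarith
    have h6 : (1 : ℝ) / b ≤ 1 / 2 ^ m := by
      apply one_div_le_one_div_of_le (by positivity)
      exact_mod_cast hb
    linarith
  have h1m : 1 ≤ 2 ^ m := Nat.one_le_two_pow
  rw [abs_le]
  constructor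
  · have := key b a ha h2 (h1m.trans hb)
    linarith
  · exact key a b hb h1 (h1m.trans ha)

theorem log_ratio {a b : ℕ} (ha : 1 ≤ a) (hb : 1 ≤ b) (h1 : a ≤ 3 * b) (h2 : b ≤ 3 * a) (c : ℕ)
    (hc : 1 ≤ c) :
    |Real.log ((c * a : ℕ) : ℝ) - Real.log ((c * b : ℕ) : ℝ)| ≤ 2 * Real.log 2 := by
  have hc0 : (0 : ℝ) < c := by exact_mod_cast hc
  have ha0 : (0 : ℝ) < a := by exact_mod_cast ha
  have hb0 : (0 : ℝ) < b := by exact_mod_cast hb
  push_cast
  rw [Real.log_mul hc0.ne' ha0.ne', Real.log_mul hc0.ne' hb0.ne']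
  have h3 : Real.log 3 ≤ 2 * Real.log 2 := by
    have : 2 * Real.log 2 = Real.log ((2 : ℝ) ^ 2) := by rw [Real.log_pow]; norm_num
    rw [this]
    exact Real.log_le_log (by norm_num) (by norm_num)
  have key : ∀ a b : ℝ, 0 < a → 0 < b → a ≤ 3 * b → Real.log a - Real.log b ≤ Real.log 3 := by
    intro a b ha hb h
    have := Real.log_le_log ha h
    rw [Real.log_mul (by norm_num) hb.ne'] at this
    linarith
  have h4 := key a b ha0 hb0 (by exact_mod_cast h1)
  have h5 := key b a hb0 ha0 (by exact_mod_cast h2)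
  rw [abs_le]
  constructor <;> linarith

/-! ### The approximate preimages -/

/-- the scalar -/
noncomputable def lam : ℂ := 3 / 4

theorem lam_ne : lam ≠ 0 := by unfold lam; norm_num

theorem norm_lam : ‖lam‖ = 3 / 4 := by
  unfold lam
  rw [norm_div, Complex.norm_ofNat, Complex.norm_ofNat]

/-- The approximate preimage of the indicator of `v₀`. -/
noncomputable def uu (m : ℕ) (v₀ : W) : W → ℂ := fun v =>
  if v.1 = 0 then
    (lam ^ (2 * m))⁻¹ *
      (Psi (2 * m - v₀.1 - 1) (m - v₀.1 - 1) (((v.2 : ℤ) + 1 - pos (2 * m) v₀).natAbs) : ℝ)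
  else 0

theorem pos_ge {n k₀ : ℕ} {v₀ : W} (hk : v₀.1 = k₀) (hn : k₀ ≤ n) : 2 ^ (n - k₀) ≤ pos n v₀ :=
  Nat.le_of_dvd (pos_pos _ _) (dvd_pos n k₀ hn v₀ hk.le)

theorem uu_root {m : ℕ} {v₀ : W} (hm : v₀.1 + 2 ≤ m) : uu m v₀ (0, 0) = 0 := by
  have h1 := pos_ge (n := 2 * m) (v₀ := v₀) rfl (by omega)
  have h2 : 2 * m - v₀.1 = (2 * m - v₀.1 - 1) + 1 := by omega
  rw [h2, pow_succ] at h1
  have h3 : 1 ≤ 2 ^ (2 * m - v₀.1 - 1) := Nat.one_le_two_pow
  have h4 : 2 ^ (2 * m - v₀.1 - 1) ≤ (((0 : ℕ) : ℤ) + 1 - pos (2 * m) v₀).natAbs := by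
    omega
  unfold uu
  simp only [if_true]
  rw [Psi_zero h4]
  simp

theorem uu_NB {m : ℕ} {v₀ : W} (hm : v₀.1 + 2 ≤ m) :
    NB (uu m v₀) (2 / ((m - v₀.1 - 1 : ℕ) : ℝ)) := by
  have hL : 0 < Real.log 2 := Real.log_pos (by norm_num)
  set l := m - v₀.1 - 1 with hl
  set A := 2 * m - v₀.1 - 1 with hA
  have hl1 : 1 ≤ l := by omega
  have hl0 : (0 : ℝ) < l := by exact_mod_cast hl1
  have hlA : l ≤ A := by omega
  have hAl : A - l = m := by omega
  have hnn : (0 : ℝ) ≤ 2 / (l : ℝ) := by positivity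
  refine ⟨?_, ?_⟩
  · rw [uu_root hm, norm_zero]
    exact hnn
  rintro ⟨k, j⟩
  cases k with
  | succ k =>
    have h1 : uu m v₀ (k + 1, j) = 0 := by simp [uu]
    have h2 : uu m v₀ (par (k + 1, j)) = 0 := by
      cases j with
      | succ j => simp [uu, par]
      | zero =>
        cases k with
        | zero => exact uu_root hm
        | succ k => simp [uu, par]
    rw [h1, h2, sub_self, norm_zero]
    exact hnn
  | zero =>
    cases j with
    | zero =>
      have : par (0, 0) = (0, 0) := rfl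
      rw [this, sub_self, norm_zero]
      exact hnn
    | succ x =>
      rw [par_mk_succ]
      unfold uu
      simp only [if_true]
      rw [← hl, ← hA]
      set a := ((((x + 1 : ℕ) : ℤ)) + 1 - pos (2 * m) v₀).natAbs with ha
      set b := (((x : ℕ) : ℤ) + 1 - pos (2 * m) v₀).natAbs with hb
      have hab : a ≤ b + 1 := by omega
      have hba : b ≤ a + 1 := by omega
      rw [← mul_sub, norm_mul, ← Complex.ofReal_sub, Complex.norm_real, Real.norm_eq_abs]
      by_cases hsmall : a ≤ 2 ^ m ∧ b ≤ 2 ^ m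
      · rw [Psi_one hl1 hlA (by rw [hAl]; exact hsmall.1), Psi_one hl1 hlA (by
          rw [hAl]; exact hsmall.2), sub_self, abs_zero, mul_zero]
        exact hnn
      · have ha2 : 2 ^ m ≤ a := by
          by_contra h
          push Not at h
          apply hsmall
          constructor <;> omega
        have hb2 : 2 ^ m ≤ b := by
          by_contra h
          push Not at h
          apply hsmall
          constructor <;> omega
        have h1 := Psi_lip A l a b
        have h2 := log_near ha2 hb2 hab hba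
        have h3 : ‖(lam ^ (2 * m))⁻¹‖ ≤ 2 ^ m := by
          rw [norm_inv, norm_pow, norm_lam, pow_mul, ← inv_pow]
          apply pow_le_pow_left₀ (by positivity)
          norm_num
        have h4 : |Psi A l a - Psi A l b| ≤ (1 / 2 ^ m) / (l * Real.log 2) :=
          h1.trans (div_le_div_of_nonneg_right h2 (by positivity))
        calc ‖(lam ^ (2 * m))⁻¹‖ * |Psi A l a - Psi A l b|
            ≤ 2 ^ m * ((1 / 2 ^ m) / (l * Real.log 2)) :=
              mul_le_mul h3 h4 (abs_nonneg _) (by positivity)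
          _ = 1 / (l * Real.log 2) := by field_simp
          _ ≤ 2 / l := by
              have hL2 : (1 : ℝ) / 2 < Real.log 2 := by
                have := Real.log_two_gt_d9
                linarith
              rw [div_le_div_iff₀ (by positivity) hl0]
              nlinarith

/-- The values of `lam ^ n * u ∘ φ ^ n`. -/
theorem uu_iter {m : ℕ} {v₀ : W} (v : W) : lam ^ (2 * m) * uu m v₀ (φ^[2 * m] v) =
    if v.1 ≤ 2 * m then
      ((Psi (2 * m - v₀.1 - 1) (m - v₀.1 - 1)
        (((pos (2 * m) v : ℤ) - pos (2 * m) v₀).natAbs) : ℝ) : ℂ)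
    else 0 := by
  by_cases h : v.1 ≤ 2 * m
  · rw [iter_le _ v h, if_pos h]
    unfold uu
    simp only [if_true]
    rw [← mul_assoc, mul_inv_cancel₀ (pow_ne_zero _ lam_ne), one_mul]
    have := pos_pos (2 * m) v
    have e : (((pos (2 * m) v - 1 : ℕ) : ℤ)) + 1 = pos (2 * m) v := by omega
    rw [e]
  · rw [if_neg h]
    rcases v with ⟨k, j⟩
    push Not at h
    rw [iter_lt _ k j h]
    have : k - 2 * m ≠ 0 := by
      have h : 2 * m < k := h
      omega
    unfold uu
    rw [if_neg this, mul_zero]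

theorem uu_iter_eq_zero {m : ℕ} {v₀ : W} (hm : v₀.1 + 2 ≤ m) {v : W}
    (hv : v ≠ v₀) (h : v.1 ≤ v₀.1 ∨ v.2 = 0) : lam ^ (2 * m) * uu m v₀ (φ^[2 * m] v) = 0 := by
  rw [uu_iter]
  split_ifs with hvn
  swap
  · rfl
  rw [Psi_zero, Complex.ofReal_zero]
  set A := 2 * m - v₀.1 - 1 with hA
  have hA2 : 2 * m - v₀.1 = A + 1 := by omega
  have hX : 2 ^ (A + 1) ∣ pos (2 * m) v₀ := by
    rw [← hA2]
    exact dvd_pos _ _ (by omega) v₀ le_rfl
  have hX2 : 2 ^ (A + 1) ≤ pos (2 * m) v₀ := Nat.le_of_dvd (pos_pos _ _) hX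
  rw [pow_succ] at hX hX2
  rcases Nat.lt_or_ge v₀.1 v.1 with hk | hk
  · -- the foot of a later tooth
    have hv0 : v.2 = 0 := by
      rcases h with h | h
      · omega
      · exact h
    rcases v with ⟨k, j⟩
    have hk : v₀.1 < k := hk
    have hv0 : j = 0 := hv0
    subst hv0
    cases k with
    | zero => omega
    | succ k =>
      have h1 : pos (2 * m) (k + 1, 0) ≤ 2 ^ A := by
        simp only [pos]
        rw [mul_zero, zero_add, mul_one]
        exact Nat.pow_le_pow_right (by norm_num) (by omega)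
      omega
  · have h1 : 2 ^ (A + 1) ∣ pos (2 * m) v := by
      rw [← hA2]
      exact dvd_pos _ _ (by omega) v hk
    rw [pow_succ] at h1
    have hne : pos (2 * m) v ≠ pos (2 * m) v₀ := by
      intro he
      apply hv
      apply φ_bijective.1.iterate (2 * m)
      rw [iter_le _ v hvn, iter_le _ v₀ (by omega), he]
    obtain ⟨c, hc⟩ := h1
    obtain ⟨d, hd⟩ := hX
    rw [hc, hd] at hne ⊢
    have hcd : c ≠ d := fun h => hne (by rw [h])
    have h3 : ((2 ^ A * 2 * c : ℕ) : ℤ) - ((2 ^ A * 2 * d : ℕ) : ℤ)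
        = ((2 ^ A * 2 : ℕ) : ℤ) * ((c : ℤ) - d) := by push_cast; ring
    rw [h3, Int.natAbs_mul, Int.natAbs_natCast]
    have h4 : 1 ≤ ((c : ℤ) - d).natAbs := by omega
    calc 2 ^ A ≤ 2 ^ A * 2 := Nat.le_mul_of_pos_right _ (by norm_num)
      _ ≤ 2 ^ A * 2 * ((c : ℤ) - d).natAbs := Nat.le_mul_of_pos_right _ h4

theorem uu_iter_self {m : ℕ} {v₀ : W} (hm : v₀.1 + 2 ≤ m) :
    lam ^ (2 * m) * uu m v₀ (φ^[2 * m] v₀) = 1 := by
  rw [uu_iter, if_pos (by omega), sub_self, Int.natAbs_zero, Psi_one (by omega) (by omega)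
    (Nat.zero_le _), Complex.ofReal_one]

theorem uu_iter_tooth {m : ℕ} {v₀ : W} (hm : v₀.1 + 2 ≤ m) (k j : ℕ) (hk : v₀.1 < k) :
    ‖lam ^ (2 * m) * uu m v₀ (φ^[2 * m] (k, j + 1)) - lam ^ (2 * m) * uu m v₀ (φ^[2 * m] (k, j))‖
      ≤ 2 / ((m - v₀.1 - 1 : ℕ) : ℝ) := by
  have hL : 0 < Real.log 2 := Real.log_pos (by norm_num)
  rw [uu_iter, uu_iter]
  simp only
  set l := m - v₀.1 - 1 with hl
  set A := 2 * m - v₀.1 - 1 with hA
  have hl1 : 1 ≤ l := by omega
  have hl0 : (0 : ℝ) < l := by exact_mod_cast hl1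
  split_ifs with h
  swap
  · rw [sub_self, norm_zero]; positivity
  rw [← Complex.ofReal_sub, Complex.norm_real, Real.norm_eq_abs]
  refine (Psi_lip A l _ _).trans ?_
  obtain ⟨k', rfl⟩ : ∃ k', k = k' + 1 := ⟨k - 1, by omega⟩
  have hX : 2 ^ (2 * m - (k' + 1)) * 2 ∣ pos (2 * m) v₀ := by
    have h1 : 2 ^ (2 * m - v₀.1) ∣ pos (2 * m) v₀ := dvd_pos _ _ (by omega) v₀ le_rfl
    refine dvd_trans ?_ h1
    rw [← pow_succ]
    exact pow_dvd_pow 2 (by omega)
  obtain ⟨c, hc⟩ := hX
  have hp1 : pos (2 * m) (k' + 1, j + 1) = 2 ^ (2 * m - (k' + 1)) * (2 * (j + 1) + 1) := rfl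
  have hp2 : pos (2 * m) (k' + 1, j) = 2 ^ (2 * m - (k' + 1)) * (2 * j + 1) := rfl
  rw [hp1, hp2, hc]
  set D := 2 ^ (2 * m - (k' + 1)) with hD
  have hD1 : 1 ≤ D := Nat.one_le_two_pow
  have e1 : ((D * (2 * (j + 1) + 1) : ℕ) : ℤ) - ((D * 2 * c : ℕ) : ℤ)
      = (D : ℤ) * (2 * (j : ℤ) + 3 - 2 * c) := by push_cast; ring
  have e2 : ((D * (2 * j + 1) : ℕ) : ℤ) - ((D * 2 * c : ℕ) : ℤ)
      = (D : ℤ) * (2 * (j : ℤ) + 1 - 2 * c) := by push_cast; ring
  rw [e1, e2, Int.natAbs_mul, Int.natAbs_mul, Int.natAbs_natCast]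
  have h5 := log_ratio (a := (2 * (j : ℤ) + 3 - 2 * c).natAbs)
    (b := (2 * (j : ℤ) + 1 - 2 * c).natAbs) (by omega) (by omega) (by omega) (by omega) D hD1
  calc _ ≤ (2 * Real.log 2) / (l * Real.log 2) := div_le_div_of_nonneg_right h5 (by positivity)
    _ = 2 / l := by field_simp

theorem uu_iter_NB {m : ℕ} {v₀ : W} (hm : v₀.1 + 2 ≤ m) :
    NB (fun v => lam ^ (2 * m) * uu m v₀ (φ^[2 * m] v) - if v = v₀ then 1 else 0)
      (2 / ((m - v₀.1 - 1 : ℕ) : ℝ)) := by
  have hnn : (0 : ℝ) ≤ 2 / ((m - v₀.1 - 1 : ℕ) : ℝ) := by positivity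
  have hz : ∀ v : W, (v.1 ≤ v₀.1 ∨ v.2 = 0) →
      lam ^ (2 * m) * uu m v₀ (φ^[2 * m] v) - (if v = v₀ then (1 : ℂ) else 0) = 0 := by
    intro v hv
    by_cases h : v = v₀
    · rw [if_pos h, h, uu_iter_self hm, sub_self]
    · rw [if_neg h, uu_iter_eq_zero hm h hv, sub_zero]
  refine ⟨?_, ?_⟩
  · simp only
    rw [hz (0, 0) (Or.inr rfl), norm_zero]
    exact hnn
  rintro ⟨k, j⟩
  simp only
  rcases Nat.lt_or_ge v₀.1 k with hk | hk
  · cases j with
    | zero =>
      rw [hz (k, 0) (Or.inr rfl)]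
      cases k with
      | zero => omega
      | succ k =>
        rw [par_succ_zero, hz (k, 0) (Or.inr rfl), sub_self, norm_zero]
        exact hnn
    | succ j =>
      rw [par_mk_succ]
      have h1 : (k, j + 1) ≠ v₀ := by
        rintro rfl
        exact lt_irrefl _ hk
      have h2 : (k, j) ≠ v₀ := by
        rintro rfl
        exact lt_irrefl _ hk
      rw [if_neg h1, if_neg h2, sub_zero, sub_zero]
      exact uu_iter_tooth hm k j hk
  · rw [hz (k, j) (Or.inl hk)]
    have : (par (k, j)).1 ≤ v₀.1 := by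
      refine le_trans ?_ hk
      cases j with
      | succ j => rw [par_mk_succ]
      | zero =>
        cases k with
        | zero => exact le_rfl
        | succ k => exact Nat.le_succ k
    rw [hz _ (Or.inl this), sub_self, norm_zero]
    exact hnn

theorem uu_support (m : ℕ) (v₀ : W) : (Function.support (uu m v₀)).Finite := by
  apply Set.Finite.subset (Set.finite_Iic ((0, pos (2 * m) v₀ + 2 ^ (2 * m - v₀.1 - 1)) : W))
  rintro ⟨k, j⟩ h
  rw [Function.mem_support] at h
  unfold uu at h
  simp only at h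
  split_ifs at h with hk
  · subst hk
    rw [Set.mem_Iic, Prod.mk_le_mk]
    refine ⟨le_rfl, ?_⟩
    by_contra hj
    push Not at hj
    apply h
    rw [Psi_zero (by omega)]
    simp
  · exact absurd rfl h

theorem two_div_tendsto (k₀ : ℕ) {ε : ℝ} (hε : 0 < ε) :
    ∃ M : ℕ, k₀ + 2 ≤ M ∧ ∀ m, M ≤ m → 2 / ((m - k₀ - 1 : ℕ) : ℝ) ≤ ε := by
  obtain ⟨N, hN⟩ := exists_nat_gt (2 / ε)
  refine ⟨N + k₀ + 2, by omega, fun m hm => ?_⟩
  have h1 : (N : ℝ) ≤ ((m - k₀ - 1 : ℕ) : ℝ) := by
    have : N ≤ m - k₀ - 1 := by omega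
    exact_mod_cast this
  have h2 : 0 < 2 / ε := by positivity
  have h3 : (0 : ℝ) < ((m - k₀ - 1 : ℕ) : ℝ) := by linarith
  rw [div_le_iff₀ h3]
  rw [div_lt_iff₀ hε] at hN
  nlinarith

/-- Approximate preimages of finitely supported functions. -/
theorem approx (g : W → ℂ) (hg : (Function.support g).Finite) {ε : ℝ} (hε : 0 < ε) :
    ∃ M : ℕ, ∀ m, M ≤ m → ∃ u : W → ℂ, (Function.support u).Finite ∧ NB u ε ∧
      NB (fun v => lam ^ (2 * m) * u (φ^[2 * m] v) - g v) ε := by
  classical
  set s := hg.toFinset with hs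
  set K : ℝ := ∑ v ∈ s, ‖g v‖ + 1 with hK
  have hK0 : 0 ≤ ∑ v ∈ s, ‖g v‖ := Finset.sum_nonneg fun _ _ => norm_nonneg _
  have hK1 : 0 < K := by linarith
  have hM : ∀ v : W, ∃ M : ℕ, v.1 + 2 ≤ M ∧
      ∀ m, M ≤ m → 2 / ((m - v.1 - 1 : ℕ) : ℝ) ≤ ε / K :=
    fun v => two_div_tendsto v.1 (by positivity)
  choose M hM1 hM2 using hM
  refine ⟨s.sup M, fun m hm => ?_⟩
  have hmv : ∀ v ∈ s, M v ≤ m := fun v hv => (Finset.le_sup hv).trans hm
  have hsum : ∑ v ∈ s, ‖g v‖ * (ε / K) ≤ ε := by
    rw [← Finset.sum_mul, mul_div_assoc', div_le_iff₀ hK1]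
    nlinarith
  refine ⟨fun x => ∑ v ∈ s, g v * uu m v x, ?_, ?_, ?_⟩
  · apply Set.Finite.subset (s.finite_toSet.biUnion fun v _ => uu_support m v)
    intro x hx
    rw [Function.mem_support] at hx
    obtain ⟨v, hv, h⟩ := Finset.exists_ne_zero_of_sum_ne_zero hx
    rw [Set.mem_iUnion₂]
    exact ⟨v, hv, fun h0 => h (by rw [h0, mul_zero])⟩
  · refine (NB.sum s (f := fun v x => g v * uu m v x) (C := fun v => ‖g v‖ * (ε / K)) ?_).mono hsum
    intro v hv
    apply NB.smul
    exact (uu_NB ((hM1 v).trans (hmv v hv))).mono (hM2 v m (hmv v hv))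
  · have h1 := NB.sum s
      (f := fun v x => g v * (lam ^ (2 * m) * uu m v (φ^[2 * m] x) - if x = v then 1 else 0))
      (C := fun v => ‖g v‖ * (ε / K)) (by
        intro v hv
        apply NB.smul
        exact (uu_iter_NB ((hM1 v).trans (hmv v hv))).mono (hM2 v m (hmv v hv)))
    have h2 := h1.mono hsum
    convert h2 using 2 with x
    simp only [mul_sub, Finset.sum_sub_distrib]
    congr 1
    · rw [Finset.mul_sum]
      apply Finset.sum_congr rfl
      intro v _
      ring
    · simp only [mul_ite, mul_one, mul_zero]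
      rw [Finset.sum_ite_eq]
      by_cases hx : x ∈ s
      · rw [if_pos hx]
      · rw [if_neg hx]
        rw [hs, Set.Finite.mem_toFinset, Function.mem_support, not_not] at hx
        exact hx

/-! ### Density of rational finitely supported functions -/

theorem littleLip_dense {g : W → ℂ} (hg : LittleLip T g) {ε : ℝ} (hε : 0 < ε) :
    ∃ g' : W → ℂ, (Function.support g').Finite ∧ NB (fun v => g' v - g v) ε := by
  rw [littleLip_iff] at hg
  have hfin := hg (ε / 2) (by linarith)
  -- a height beyond which the gradient is small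
  obtain ⟨N, hN⟩ : ∃ N : ℕ, ∀ v, N < ht v → ‖g v - g (par v)‖ ≤ ε / 2 := by
    obtain ⟨N, hN⟩ := (hfin.image ht).bddAbove
    refine ⟨N, fun v hv => ?_⟩
    by_contra h
    push Not at h
    have := hN ⟨v, h.le, rfl⟩
    omega
  have hball : {v : W | ht v ≤ N}.Finite := by
    apply Set.Finite.subset (Set.finite_Iic ((N, N) : W))
    rintro ⟨k, j⟩ h
    have h : k + j ≤ N := h
    rw [Set.mem_Iic, Prod.mk_le_mk]
    omega
  obtain ⟨B, hB⟩ := (hball.image fun v => ‖g v‖).bddAbove
  have hB' : ∀ v, ht v ≤ N → ‖g v‖ ≤ B := fun v hv => hB ⟨v, hv, rfl⟩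
  have hB0 : 0 ≤ B := (norm_nonneg _).trans (hB' (0, 0) (Nat.zero_le _))
  -- the ancestor at height `N`
  set π : W → W := fun v => par^[ht v - N] v with hπ
  have hht : ∀ n v, n ≤ ht v → ht (par^[n] v) = ht v - n := by
    intro n
    induction n with
    | zero => intro v _; rfl
    | succ n ih =>
      intro v hv
      have hv0 : v ≠ (0, 0) := by
        rintro rfl
        simp [ht] at hv
      have h1 := ht_par v hv0
      rw [Function.iterate_succ_apply, ih (par v) (by omega)]
      omega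
  have hπN : ∀ v, ht (π v) ≤ N := by
    intro v
    rw [hπ]
    simp only
    rw [hht _ v (Nat.sub_le _ _)]
    omega
  have hπpar : ∀ v, N < ht v → π (par v) = π v := by
    intro v hv
    have hv0 : v ≠ (0, 0) := by
      rintro rfl
      simp [ht] at hv
    have h1 := ht_par v hv0
    simp only [hπ]
    have h2 : ht v - N = (ht (par v) - N) + 1 := by omega
    rw [h2, Function.iterate_succ_apply]
  have hπid : ∀ v, ht v ≤ N → π v = v := by
    intro v hv
    simp only [hπ]
    have : ht v - N = 0 := by omega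
    rw [this]
    rfl
  -- the cut-off
  set δ : ℝ := ε / (2 * (B + 1)) with hδ
  have hδ0 : 0 < δ := by positivity
  set χ : ℕ → ℝ := fun n => max 0 (1 - δ * n) with hχ
  have hχ0 : χ 0 = 1 := by simp [hχ]
  have hχlip : ∀ n, |χ (n + 1) - χ n| ≤ δ := by
    intro n
    have hmax : ∀ x y : ℝ, |max 0 x - max 0 y| ≤ |x - y| := by
      intro x y
      rcases le_total 0 x with hx | hx <;> rcases le_total 0 y with hy | hy
      · rw [max_eq_right hx, max_eq_right hy]
      · rw [max_eq_right hx, max_eq_left hy, abs_of_nonneg (by linarith),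
          abs_of_nonneg (by linarith)]
        linarith
      · rw [max_eq_left hx, max_eq_right hy, abs_of_nonpos (by linarith),
          abs_of_nonpos (by linarith)]
        linarith
      · rw [max_eq_left hx, max_eq_left hy, sub_self, abs_zero]; exact abs_nonneg _
    simp only [hχ]
    refine (hmax _ _).trans ?_
    push_cast
    have : 1 - δ * ((n : ℝ) + 1) - (1 - δ * n) = -δ := by ring
    rw [this, abs_neg, abs_of_pos hδ0]
  refine ⟨fun v => (χ (ht v - N) : ℂ) * g (π v), ?_, ?_, ?_⟩
  · obtain ⟨R, hR⟩ := exists_nat_gt (1 / δ)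
    apply Set.Finite.subset (Set.finite_Iic ((N + R, N + R) : W))
    rintro ⟨k, j⟩ h
    rw [Function.mem_support] at h
    rw [Set.mem_Iic, Prod.mk_le_mk]
    have hlt : ht (k, j) - N < R := by
      by_contra hcon
      push Not at hcon
      apply h
      have h1 : χ (ht (k, j) - N) = 0 := by
        simp only [hχ]
        apply max_eq_left
        have h2 : (R : ℝ) ≤ ((ht (k, j) - N : ℕ) : ℝ) := by exact_mod_cast hcon
        rw [div_lt_iff₀ hδ0] at hR
        nlinarith
      rw [h1]
      simp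
    simp only [ht] at hlt
    constructor <;> omega
  · have h0 : ht (0, 0) - N = 0 := by simp [ht]
    simp only
    rw [h0, hχ0, hπid (0, 0) (Nat.zero_le _)]
    simp only [Complex.ofReal_one, one_mul, sub_self, norm_zero]
    exact hε.le
  · intro v
    simp only
    rcases Nat.lt_or_ge N (ht v) with hv | hv
    · have hv0 : v ≠ (0, 0) := by
        rintro rfl
        simp [ht] at hv
      have h1 := ht_par v hv0
      rw [hπpar v hv]
      have h2 : ht v - N = (ht (par v) - N) + 1 := by omega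
      rw [h2]
      have e : (χ (ht (par v) - N + 1) : ℂ) * g (π v) - g v -
          ((χ (ht (par v) - N) : ℂ) * g (π v) - g (par v))
          = ((χ (ht (par v) - N + 1) - χ (ht (par v) - N) : ℝ) : ℂ) * g (π v)
            - (g v - g (par v)) := by push_cast; ring
      rw [e]
      refine (norm_sub_le _ _).trans ?_
      rw [norm_mul, Complex.norm_real, Real.norm_eq_abs]
      have h3 := hχlip (ht (par v) - N)
      have h4 := hB' _ (hπN v)
      have h5 := hN v hv
      have h6 : |χ (ht (par v) - N + 1) - χ (ht (par v) - N)| * ‖g (π v)‖ ≤ δ * B :=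
        mul_le_mul h3 h4 (norm_nonneg _) hδ0.le
      have h7 : δ * B ≤ ε / 2 := by
        rw [hδ, div_mul_eq_mul_div, div_le_iff₀ (by positivity)]
        nlinarith
      linarith
    · have hv2 : ht (par v) ≤ N := (ht_par_le v).trans hv
      have h1 : ht v - N = 0 := by omega
      have h2 : ht (par v) - N = 0 := by omega
      rw [h1, h2, hχ0, hπid v hv, hπid (par v) hv2]
      simp only [Complex.ofReal_one, one_mul, sub_self, norm_zero]
      exact hε.le

/-- Complex numbers with rational coordinates. -/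
noncomputable def toC (q : ℚ × ℚ) : ℂ := ⟨(q.1 : ℝ), (q.2 : ℝ)⟩

theorem toC_zero : toC 0 = 0 := by
  apply Complex.ext <;> simp [toC]

theorem exists_toC (z : ℂ) {ε : ℝ} (hε : 0 < ε) : ∃ q : ℚ × ℚ, ‖toC q - z‖ ≤ ε := by
  obtain ⟨a, ha⟩ := exists_rat_near z.re (show (0 : ℝ) < ε / 2 by linarith)
  obtain ⟨b, hb⟩ := exists_rat_near z.im (show (0 : ℝ) < ε / 2 by linarith)
  refine ⟨(a, b), ?_⟩
  refine (Complex.norm_le_abs_re_add_abs_im _).trans ?_
  simp only [toC, Complex.sub_re, Complex.sub_im]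
  rw [abs_sub_comm] at ha hb
  linarith

theorem rational_dense {g : W → ℂ} (hg : LittleLip T g) {ε : ℝ} (hε : 0 < ε) :
    ∃ r : W →₀ (ℚ × ℚ), NB (fun v => toC (r v) - g v) ε := by
  classical
  obtain ⟨g', hfin, hg'⟩ := littleLip_dense hg (half_pos hε)
  choose q hq using fun v : W => exists_toC (g' v) (show (0 : ℝ) < ε / 4 by linarith)
  refine ⟨Finsupp.onFinset hfin.toFinset (fun v => if v ∈ hfin.toFinset then q v else 0) ?_, ?_⟩
  · intro v hv
    by_contra h
    rw [if_neg h] at hv
    exact hv rfl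
  · have h1 : NB (fun v => toC (Finsupp.onFinset hfin.toFinset
        (fun v => if v ∈ hfin.toFinset then q v else 0) (by
          intro v hv
          by_contra h
          rw [if_neg h] at hv
          exact hv rfl) v) - g' v) (2 * (ε / 4)) := by
      apply NB.of_bound
      intro v
      rw [Finsupp.onFinset_apply]
      by_cases h : v ∈ hfin.toFinset
      · rw [if_pos h]; exact hq v
      · rw [if_neg h, toC_zero]
        rw [Set.Finite.mem_toFinset, Function.mem_support, not_not] at h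
        rw [h, sub_zero, norm_zero]
        linarith
    have h2 := h1.add hg'
    refine (NB.mono ?_ (show 2 * (ε / 4) + ε / 2 ≤ ε by linarith))
    convert h2 using 2 with v
    ring

/-! ### The hypercyclic vector -/

/-- One step of the construction. -/
theorem stage (g : W → ℂ) (hg : (Function.support g).Finite) (S : Finset (ℕ × (W → ℂ)))
    (hS : ∀ q ∈ S, (Function.support q.2).Finite) {ε : ℝ} (hε : 0 < ε) :
    ∃ p : ℕ × (W → ℂ), (Function.support p.2).Finite ∧ NB p.2 ε ∧
      NB (fun v => lam ^ (2 * p.1) * p.2 (φ^[2 * p.1] v) - g v) ε ∧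
      ∀ q ∈ S, NB (fun v => lam ^ (2 * q.1) * p.2 (φ^[2 * q.1] v)) ε ∧
        NB (fun v => lam ^ (2 * p.1) * q.2 (φ^[2 * p.1] v)) ε := by
  classical
  -- the tolerance
  set R := S.sup Prod.fst with hR
  have hδ : 0 < ε / 2 ^ (2 * R) := by positivity
  have hδε : ε / 2 ^ (2 * R) ≤ ε := div_le_self hε.le (one_le_pow₀ (by norm_num))
  obtain ⟨M, hM⟩ := approx g hg hδ
  -- the earlier blocks are small after many iterations
  have hN : ∀ q : ℕ × (W → ℂ), ∃ N : ℕ, q ∈ S → ∀ m, N ≤ m →
      NB (fun v => lam ^ (2 * m) * q.2 (φ^[2 * m] v)) ε := by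
    intro q
    by_cases hq : q ∈ S
    · have hfin := hS q hq
      obtain ⟨B, hB⟩ : ∃ B : ℝ, ∀ v, ‖q.2 v‖ ≤ B := by
        obtain ⟨B, hB⟩ := (hfin.image fun v => ‖q.2 v‖).bddAbove
        refine ⟨max B 0, fun v => ?_⟩
        by_cases hv : q.2 v = 0
        · rw [hv, norm_zero]; exact le_max_right _ _
        · exact (hB ⟨v, hv, rfl⟩).trans (le_max_left _ _)
      have hB0 : 0 ≤ B := (norm_nonneg _).trans (hB (0, 0))
      obtain ⟨N, hN⟩ := exists_pow_lt_of_lt_one
        (show (0 : ℝ) < ε / (2 * (B + 1)) by positivity) (show (3 / 4 : ℝ) < 1 by norm_num)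
      refine ⟨N, fun _ m hm => ?_⟩
      have h1 : (3 / 4 : ℝ) ^ (2 * m) ≤ ε / (2 * (B + 1)) :=
        (pow_le_pow_of_le_one (by norm_num) (by norm_num) (by omega)).trans hN.le
      have h2 : NB (fun v => lam ^ (2 * m) * q.2 (φ^[2 * m] v))
          (2 * ((3 / 4 : ℝ) ^ (2 * m) * B)) := by
        apply NB.of_bound
        intro v
        rw [norm_mul, norm_pow, norm_lam]
        exact mul_le_mul_of_nonneg_left (hB _) (by positivity)
      refine h2.mono ?_
      have h3 : (3 / 4 : ℝ) ^ (2 * m) * B ≤ ε / (2 * (B + 1)) * B :=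
        mul_le_mul_of_nonneg_right h1 hB0
      have h4 : ε / (2 * (B + 1)) * B ≤ ε / 2 := by
        rw [div_mul_eq_mul_div, div_le_iff₀ (by positivity)]
        nlinarith
      linarith
    · exact ⟨0, fun h => absurd h hq⟩
  choose N hN using hN
  set m := max M (S.sup N) with hm
  obtain ⟨u, hu1, hu2, hu3⟩ := hM m (le_max_left _ _)
  refine ⟨(m, u), hu1, hu2.mono hδε, hu3.mono hδε, fun q hq => ⟨?_, ?_⟩⟩
  · have h1 := (hu2.comp_φ_iter (2 * q.1)).smul (lam ^ (2 * q.1))
    refine h1.mono ?_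
    have h2 : q.1 ≤ R := Finset.le_sup (f := Prod.fst) hq
    have h3 : (2 : ℝ) ^ (2 * q.1) ≤ 2 ^ (2 * R) := pow_le_pow_right₀ (by norm_num) (by omega)
    have h4 : ‖lam ^ (2 * q.1)‖ ≤ 1 := by
      rw [norm_pow, norm_lam]
      exact pow_le_one₀ (by norm_num) (by norm_num)
    have h5 : (2 : ℝ) ^ (2 * q.1) * (ε / 2 ^ (2 * R)) ≤ ε := by
      rw [mul_div_assoc', div_le_iff₀ (by positivity)]
      rw [mul_comm]
      exact mul_le_mul_of_nonneg_left h3 hε.le
    calc _ ≤ 1 * (2 ^ (2 * q.1) * (ε / 2 ^ (2 * R))) :=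
          mul_le_mul_of_nonneg_right h4 (by positivity)
      _ ≤ ε := by rw [one_mul]; exact h5
  · exact hN q hq m ((Finset.le_sup hq).trans (le_max_right _ _))

/-- The states of the construction. -/
abbrev State := {S : Finset (ℕ × (W → ℂ)) // ∀ q ∈ S, (Function.support q.2).Finite}

theorem exists_seq (g : ℕ → W → ℂ) (hg : ∀ k, (Function.support (g k)).Finite) :
    ∃ p : ℕ → ℕ × (W → ℂ), (∀ k, (Function.support (p k).2).Finite) ∧
      (∀ k, NB (p k).2 ((1 / 4) ^ k)) ∧
      (∀ k, NB (fun v => lam ^ (2 * (p k).1) * (p k).2 (φ^[2 * (p k).1] v) - g k v)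
        ((1 / 4) ^ k)) ∧
      (∀ i k, i < k → NB (fun v => lam ^ (2 * (p i).1) * (p k).2 (φ^[2 * (p i).1] v))
        ((1 / 4) ^ k)) ∧
      (∀ i k, i < k → NB (fun v => lam ^ (2 * (p k).1) * (p i).2 (φ^[2 * (p k).1] v))
        ((1 / 4) ^ k)) := by
  classical
  have key := fun (k : ℕ) (S : State) =>
    stage (g k) (hg k) S.1 S.2 (show (0 : ℝ) < (1 / 4) ^ k by positivity)
  choose pick h1 h2 h3 h4 using key
  let next : ℕ → State → State := fun k S => ⟨insert (pick k S) S.1, by
    intro q hq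
    rw [Finset.mem_insert] at hq
    rcases hq with rfl | hq
    · exact h1 k S
    · exact S.2 q hq⟩
  let St : ℕ → State := fun k => Nat.rec ⟨∅, by simp⟩ next k
  have hSt : ∀ k, St (k + 1) = next k (St k) := fun k => rfl
  have hmem : ∀ i k, i < k → pick i (St i) ∈ (St k).1 := by
    intro i k hik
    induction k with
    | zero => omega
    | succ k ih =>
      rw [hSt]
      show _ ∈ insert (pick k (St k)) (St k).1
      rw [Finset.mem_insert]
      rcases Nat.lt_succ_iff_lt_or_eq.1 hik with h | h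
      · exact Or.inr (ih h)
      · left; rw [h]
  refine ⟨fun k => pick k (St k), fun k => h1 _ _, fun k => h2 _ _, fun k => h3 _ _, ?_, ?_⟩
  · intro i k hik
    exact (h4 k (St k) _ (hmem i k hik)).1
  · intro i k hik
    exact (h4 k (St k) _ (hmem i k hik)).2

theorem NB.tsum_geom {f : ℕ → W → ℂ} (k : ℕ) (hf : ∀ i, NB (f i) ((1 / 2) ^ k * (1 / 2) ^ i)) :
    NB (fun v => ∑' i, f i v) (2 * (1 / 2) ^ k) := by
  have h := NB.tsum (summable_geometric_two.mul_left ((1 / 2 : ℝ) ^ k)) hf
  rw [tsum_mul_left, tsum_geometric_two, mul_comm] at h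
  exact h

theorem quarter_le {i k : ℕ} (h : i ≤ k) : (1 / 4 : ℝ) ^ k ≤ (1 / 2) ^ k * (1 / 2) ^ i := by
  have : (1 / 4 : ℝ) ^ k = (1 / 2) ^ k * (1 / 2) ^ k := by
    rw [← mul_pow]; norm_num
  rw [this]
  exact mul_le_mul_of_nonneg_left (pow_le_pow_of_le_one (by norm_num) (by norm_num) h)
    (by positivity)

theorem NB.zero {C : ℝ} (hC : 0 ≤ C) : NB (fun _ => 0) C := by
  refine ⟨by simpa using hC, fun v => by simpa using hC⟩

theorem littleLip_of_approx {f : W → ℂ} (h : ∀ ε : ℝ, 0 < ε → ∃ f' : W → ℂ,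
    (Function.support f').Finite ∧ NB (fun v => f v - f' v) ε) : LittleLip T f := by
  rw [littleLip_iff]
  intro ε hε
  obtain ⟨f', h1, h2⟩ := h (ε / 2) (by linarith)
  apply Set.Finite.subset (h1.union (par_finite _ h1))
  intro v hv
  have hv : ε ≤ ‖f v - f (par v)‖ := hv
  by_contra hcon
  rw [Set.mem_union, not_or, Set.mem_preimage, Function.mem_support, Function.mem_support,
    not_not, not_not] at hcon
  have h3 : ‖(f v - f' v) - (f (par v) - f' (par v))‖ ≤ ε / 2 := h2.2 v
  rw [hcon.1, hcon.2, sub_zero, sub_zero] at h3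
  linarith

theorem hypercyclic : Hypercyclic T φ lam := by
  classical
  obtain ⟨e, he⟩ := exists_surjective_nat (W →₀ (ℚ × ℚ))
  set g : ℕ → W → ℂ := fun k v => toC (e (Nat.unpair k).1 v) with hg
  have hgfin : ∀ k, (Function.support (g k)).Finite := by
    intro k
    apply Set.Finite.subset (e (Nat.unpair k).1).support.finite_toSet
    intro v hv
    rw [Finset.mem_coe, Finsupp.mem_support_iff]
    intro h0
    apply hv
    simp only [hg]
    rw [h0, toC_zero]
  obtain ⟨p, h1, h2, h3, h4, h5⟩ := exists_seq g hgfin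
  set u : ℕ → W → ℂ := fun i => (p i).2 with hu
  have hsum : ∀ v, Summable fun i => u i v := by
    intro v
    have hc : Summable fun i : ℕ => (1 / 4 : ℝ) ^ i :=
      summable_geometric_of_lt_one (by norm_num) (by norm_num)
    apply Summable.of_norm_bounded (g := fun i => ((ht v : ℝ) + 1) * (1 / 4) ^ i) (hc.mul_left _)
    intro i
    exact (h2 i).pointwise _ v rfl
  refine ⟨fun v => ∑' i, u i v, ?_, ?_⟩
  · -- membership
    apply littleLip_of_approx
    intro ε hε
    obtain ⟨N, hN⟩ := exists_pow_lt_of_lt_one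
      (show (0 : ℝ) < ε / 2 by positivity) (show (1 / 2 : ℝ) < 1 by norm_num)
    refine ⟨fun v => ∑ i ∈ Finset.range N, u i v, ?_, ?_⟩
    · apply Set.Finite.subset ((Finset.range N).finite_toSet.biUnion fun i _ => h1 i)
      intro v hv
      obtain ⟨i, hi, h⟩ := Finset.exists_ne_zero_of_sum_ne_zero hv
      rw [Set.mem_iUnion₂]
      exact ⟨i, hi, h⟩
    · have h6 : NB (fun v => ∑' i, (if i < N then 0 else u i v)) (2 * (1 / 2) ^ N) := by
        apply NB.tsum_geom
        intro i
        by_cases hi : i < N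
        · simp only [if_pos hi]
          exact NB.zero (by positivity)
        · simp only [if_neg hi]
          refine (h2 i).mono ((quarter_le (i := N) (by omega)).trans ?_)
          rw [mul_comm]
      refine NB.mono ?_ (show 2 * (1 / 2) ^ N ≤ ε by linarith)
      convert h6 using 2 with v
      have h7 : ∑ i ∈ Finset.range N, u i v = ∑' i, (if i < N then u i v else 0) := by
        rw [tsum_eq_sum (s := Finset.range N)]
        · apply Finset.sum_congr rfl
          intro i hi
          rw [if_pos (Finset.mem_range.1 hi)]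
        · intro i hi
          rw [if_neg (fun h => hi (Finset.mem_range.2 h))]
      have h8 : Summable fun i => (if i < N then u i v else 0) := by
        apply summable_of_ne_finset_zero (s := Finset.range N)
        intro i hi
        rw [if_neg (fun h => hi (Finset.mem_range.2 h))]
      show ∑' i, u i v - ∑ i ∈ Finset.range N, u i v = _
      rw [h7, ← (hsum v).tsum_sub h8]
      apply tsum_congr
      intro i
      split_ifs <;> simp
  · -- density
    intro G hG ε hε
    obtain ⟨r, hr⟩ := rational_dense hG (show (0 : ℝ) < ε / 4 by linarith)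
    obtain ⟨a, ha⟩ := he r
    obtain ⟨N, hN⟩ := exists_pow_lt_of_lt_one
      (show (0 : ℝ) < ε / 8 by positivity) (show (1 / 2 : ℝ) < 1 by norm_num)
    set k := Nat.pair a N with hk
    have hkN : N ≤ k := Nat.right_le_pair a N
    have hgk : g k = fun v => toC (r v) := by
      simp only [hg, hk]
      rw [Nat.unpair_pair, ha]
    have hsmall : (1 / 2 : ℝ) ^ k ≤ (1 / 2) ^ N :=
      pow_le_pow_of_le_one (by norm_num) (by norm_num) hkN
    -- the main estimate
    have h6 : NB (fun v => ∑' i, (lam ^ (2 * (p k).1) * u i (φ^[2 * (p k).1] v)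
        - if i = k then g k v else 0)) (2 * (1 / 2) ^ k) := by
      apply NB.tsum_geom
      intro i
      rcases lt_trichotomy i k with hi | hi | hi
      · simp only [if_neg hi.ne, sub_zero]
        exact (h5 i k hi).mono (quarter_le hi.le)
      · simp only [if_pos hi]
        rw [hi]
        exact (h3 k).mono (quarter_le le_rfl)
      · simp only [if_neg hi.ne', sub_zero]
        refine (h4 k i hi).mono ((quarter_le hi.le).trans ?_)
        rw [mul_comm]
    refine ⟨2 * (p k).1, ?_⟩
    have h7 : NB (fun v => lam ^ (2 * (p k).1) * ∑' i, u i (φ^[2 * (p k).1] v) - g k v)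
        (2 * (1 / 2) ^ k) := by
      convert h6 using 2 with v
      have h8 : Summable fun i => (if i = k then g k v else 0) := by
        apply summable_of_ne_finset_zero (s := {k})
        intro i hi
        rw [Finset.mem_singleton] at hi
        rw [if_neg hi]
      rw [((hsum (φ^[2 * (p k).1] v)).mul_left (lam ^ (2 * (p k).1))).tsum_sub h8, tsum_mul_left,
        tsum_ite_eq]
    rw [hgk] at h7
    have h8 := (h7.add hr).lipNorm_le
    refine lt_of_le_of_lt (le_trans (le_of_eq ?_) h8) (by linarith)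
    congr 1
    funext v
    ring

/-- **Main theorem.** There are a rooted tree, a composition operator `C_φ` on its little
Lipschitz space and `|lam| ≤ 1` with `lam C_φ` hypercyclic and `φ` surjective. -/
theorem result : ∃ (V : Type) (T : RootedTree V) (φ : V → V) (lam : ℂ), ‖lam‖ ≤ 1 ∧
    IsCompositionOperator T φ ∧ Hypercyclic T φ lam ∧ (Set.range φ)ᶜ = ∅ :=
  ⟨W, T, φ, lam, by rw [norm_lam]; norm_num, compositionOperator, hypercyclic, by
    rw [φ_bijective.2.range_eq, Set.compl_univ]⟩

end Pool.Agent.Results.MP_2744a5_an.CombTree
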